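import Pool.Agent.helper47.MSW.SpecA
import Pool.Agent.helper47.MSW.SpecB

/-! Row msw:INS (MP_a87880_co): the insulator. -/

set_option autoImplicit false

namespace Pool.Agent.MSW

open Equiv Finset Function MeasureTheory Pool.Agent.helper48.PP
open Pool.Agent.DSW (Pr Has GP wt)
open scoped ENNReal Classical

noncomputable section

/-- the index of position `t` in layer `i` -/
def INS_ix (s : ℕ) (i t : Fin (s + 1)) : Fin ((s + 1) * s + s + 1) :=
  (finProdFinEquiv (i, t) : Fin ((s + 1) * (s + 1)))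

theorem INS_val (s : ℕ) (i t : Fin (s + 1)) : (INS_ix s i t : ℕ) = t + (s + 1) * i := by
  change ((finProdFinEquiv (i, t) : Fin ((s + 1) * (s + 1))) : ℕ) = _
  rw [finProdFinEquiv_apply_val]

theorem INS_surj (s : ℕ) (k : Fin ((s + 1) * s + s + 1)) : ∃ i t, INS_ix s i t = k := by
  obtain ⟨⟨i, t⟩, h⟩ := (finProdFinEquiv (m := s + 1) (n := s + 1)).surjective k
  exact ⟨i, t, h⟩

theorem INS_lt1 {s : ℕ} {i i' : Fin (s + 1)} (h : i < i') (t t' : Fin (s + 1)) :
    INS_ix s i t < INS_ix s i' t' := by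
  rw [Fin.lt_def, INS_val, INS_val]
  have h1 : (i : ℕ) + 1 ≤ i' := h
  have h2 : (t : ℕ) < s + 1 := t.2
  have h3 : (s + 1) * ((i : ℕ) + 1) ≤ (s + 1) * i' := Nat.mul_le_mul_left _ h1
  have h4 : (s + 1) * ((i : ℕ) + 1) = (s + 1) * i + (s + 1) := by ring
  omega

theorem INS_lt2 {s : ℕ} (i : Fin (s + 1)) {t t' : Fin (s + 1)} (h : t < t') :
    INS_ix s i t < INS_ix s i t' := by
  rw [Fin.lt_def, INS_val, INS_val]
  have h1 : (t : ℕ) < t' := h
  omega

theorem INS_last (s : ℕ) : INS_ix s (Fin.last s) (Fin.last s) = Fin.last ((s + 1) * s + s) := by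
  apply Fin.ext
  rw [INS_val, Fin.val_last, Fin.val_last]
  ring

/-- the cell number `(i, t)` -/
def INS_c {s : ℕ} (C : Cp ((s + 1) * s + s + 1)) (i t : Fin (s + 1)) : Pt :=
  (C.1 (INS_ix s i t), C.2 (INS_ix s (Fin.rev i) t))

theorem INS_o1 {s : ℕ} {C : Cp ((s + 1) * s + s + 1)} (hC : isC C) {i i' : Fin (s + 1)} (h : i < i')
    (t t' : Fin (s + 1)) : (INS_c C i t).1 < (INS_c C i' t').1 ∧ (INS_c C i' t').2 < (INS_c C i t).2 :=
  ⟨hC.1 (INS_lt1 h t t'), hC.2 (INS_lt1 (Fin.rev_lt_rev.2 h) t' t)⟩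

theorem INS_o2 {s : ℕ} {C : Cp ((s + 1) * s + s + 1)} (hC : isC C) (i : Fin (s + 1)) {t t' : Fin (s + 1)}
    (h : t < t') : (INS_c C i t).1 < (INS_c C i t').1 ∧ (INS_c C i t).2 < (INS_c C i t').2 :=
  ⟨hC.1 (INS_lt2 i h), hC.2 (INS_lt2 _ h)⟩

/-- decreasing pairs of cells are in different layers, in order -/
theorem INS_dec {s : ℕ} {C : Cp ((s + 1) * s + s + 1)} (hC : isC C) {i i' t t' : Fin (s + 1)}
    (h1 : (INS_c C i t).1 < (INS_c C i' t').1) (h2 : (INS_c C i' t').2 < (INS_c C i t).2) : i < i' := by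
  rcases lt_trichotomy i i' with h | h | h
  · exact h
  · subst h
    exfalso
    rcases lt_trichotomy t t' with h3 | h3 | h3
    · exact lt_asymm h2 (INS_o2 hC i h3).2
    · subst h3
      exact lt_irrefl _ h1
    · exact lt_asymm h1 (INS_o2 hC i h3).1
  · exact absurd (INS_o1 hC h t' t).1 (lt_asymm h1)

/-- cells in one layer are comparable -/
theorem INS_same {s : ℕ} {C : Cp ((s + 1) * s + s + 1)} (hC : isC C) {i t t' : Fin (s + 1)}
    (h1 : (INS_c C i t).1 < (INS_c C i t').1) : t < t' := by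
  rcases lt_trichotomy t t' with h3 | h3 | h3
  · exact h3
  · subst h3
    exact absurd h1 (lt_irrefl _)
  · exact absurd (INS_o2 hC i h3).1 (lt_asymm h1)

theorem INS_id {n : ℕ} {f : Fin n → Fin n} (hf : StrictMono f) : f = id := by
  refine (StrictMono.range_inj hf strictMono_id).1 ?_
  rw [Set.range_id, Set.range_eq_univ]
  exact (Finite.injective_iff_surjective).1 hf.injective

theorem INS_cls (hRCZ : RCZ_stmt) {s : ℕ} (C : Cp ((s + 1) * s + s + 1)) (c : Pt) :
    c ∈ cls (zr s).2 C ↔ ∃ i t, c = INS_c C i t := by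
  have h1 : ∀ i t : Fin (s + 1), (zr s).2 (INS_ix s i t) = INS_ix s (Fin.rev i) t := hRCZ.1 s
  unfold cls
  rw [Finset.mem_image]
  constructor
  · rintro ⟨k, -, rfl⟩
    obtain ⟨i, t, rfl⟩ := INS_surj s k
    refine ⟨i, t, ?_⟩
    rw [h1]
    rfl
  · rintro ⟨i, t, rfl⟩
    refine ⟨INS_ix s i t, Finset.mem_univ _, ?_⟩
    rw [h1]
    rfl

/-- the hybrid copy -/
theorem INS_hyb (hRCZ : RCZ_stmt) (hCPA : CPA_stmt) {s : ℕ} {ω : Om} {a : Pt}
    {C C' : Cp ((s + 1) * s + s + 1)} (hC : isC C) (hC' : isC C') (hg : geP a C) (hg' : geP a C')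
    (hω : ∀ c ∈ cls (zr s).2 C, ω c = true) (hω' : ∀ c ∈ cls (zr s).2 C', ω c = true) (j : Fin (s + 1))
    (hj : ∀ t, INS_c C' j t = INS_c C j t) : HP (zr s).2 ω a ((tp C').1, (tp C).2) := by
  have hj1 : ∀ t, C'.1 (INS_ix s j t) = C.1 (INS_ix s j t) := fun t => congrArg Prod.fst (hj t)
  have hj2 : ∀ t, C'.2 (INS_ix s (Fin.rev j) t) = C.2 (INS_ix s (Fin.rev j) t) := fun t => congrArg Prod.snd (hj t)
  obtain ⟨D, hD1, hD2⟩ : ∃ D : Cp ((s + 1) * s + s + 1),
      (∀ k, D.1 k = if k ≤ INS_ix s j (Fin.last s) then C.1 k else C'.1 k) ∧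
      (∀ k, D.2 k = if k < INS_ix s (Fin.rev j) 0 then C'.2 k else C.2 k) :=
    ⟨(fun k => if k ≤ INS_ix s j (Fin.last s) then C.1 k else C'.1 k,
      fun k => if k < INS_ix s (Fin.rev j) 0 then C'.2 k else C.2 k), fun _ => rfl, fun _ => rfl⟩
  have hD : isC D := by
    constructor
    · intro k k' hk
      rw [hD1, hD1]
      by_cases h1 : k' ≤ INS_ix s j (Fin.last s)
      · rw [if_pos h1, if_pos (hk.le.trans h1)]
        exact hC.1 hk
      · rw [if_neg h1]
        by_cases h2 : k ≤ INS_ix s j (Fin.last s)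
        · rw [if_pos h2]
          calc C.1 k ≤ C.1 (INS_ix s j (Fin.last s)) := hC.1.monotone h2
            _ = C'.1 (INS_ix s j (Fin.last s)) := (hj1 _).symm
            _ < C'.1 k' := hC'.1 (not_le.1 h1)
        · rw [if_neg h2]
          exact hC'.1 hk
    · intro k k' hk
      rw [hD2, hD2]
      by_cases h1 : k' < INS_ix s (Fin.rev j) 0
      · rw [if_pos h1, if_pos (hk.trans h1)]
        exact hC'.2 hk
      · rw [if_neg h1]
        by_cases h2 : k < INS_ix s (Fin.rev j) 0
        · rw [if_pos h2]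
          calc C'.2 k < C'.2 (INS_ix s (Fin.rev j) 0) := hC'.2 h2
            _ = C.2 (INS_ix s (Fin.rev j) 0) := hj2 _
            _ ≤ C.2 k' := hC.2.monotone (not_lt.1 h1)
        · rw [if_neg h2]
          exact hC.2 hk
  have hDg : geP a D := by
    intro k
    rw [hD1, hD2]
    constructor
    · split_ifs
      · exact (hg k).1
      · exact (hg' k).1
    · split_ifs
      · exact (hg' k).2
      · exact (hg k).2
  have hDω : ∀ c ∈ cls (zr s).2 D, ω c = true := by
    intro c hc
    obtain ⟨i, t, rfl⟩ := (INS_cls hRCZ D c).1 hc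
    rcases le_or_gt i j with hij | hij
    · have h1 : INS_ix s i t ≤ INS_ix s j (Fin.last s) := by
        rcases hij.lt_or_eq with h | h
        · exact (INS_lt1 h _ _).le
        · subst h
          rcases (Fin.le_last t).lt_or_eq with h2 | h2
          · exact (INS_lt2 i h2).le
          · rw [h2]
      have h2 : ¬ INS_ix s (Fin.rev i) t < INS_ix s (Fin.rev j) 0 := by
        rw [not_lt]
        rcases hij.lt_or_eq with h | h
        · exact (INS_lt1 (Fin.rev_lt_rev.2 h) _ _).le
        · subst h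
          rcases (Fin.zero_le t).lt_or_eq with h2 | h2
          · exact (INS_lt2 _ h2).le
          · rw [← h2]
      have h3 : INS_c D i t = INS_c C i t := by
        unfold INS_c
        rw [hD1, hD2, if_pos h1, if_neg h2]
      rw [h3]
      exact hω _ ((INS_cls hRCZ C _).2 ⟨i, t, rfl⟩)
    · have h1 : ¬ INS_ix s i t ≤ INS_ix s j (Fin.last s) := by
        rw [not_le]
        exact INS_lt1 hij _ _
      have h2 : INS_ix s (Fin.rev i) t < INS_ix s (Fin.rev j) 0 := INS_lt1 (Fin.rev_lt_rev.2 hij) _ _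
      have h3 : INS_c D i t = INS_c C' i t := by
        unfold INS_c
        rw [hD1, hD2, if_neg h1, if_pos h2]
      rw [h3]
      exact hω' _ ((INS_cls hRCZ C' _).2 ⟨i, t, rfl⟩)
  have h1 := hCPA.2.1 _ (zr s).2 D ω a hD hDg hDω
  have h2 : tp D = ((tp C').1, (tp C).2) := by
    have e1 : D.1 (Fin.last _) = C'.1 (Fin.last _) := by
      rw [hD1]
      split_ifs with h
      · have h3 : INS_ix s j (Fin.last s) = Fin.last _ := le_antisymm (Fin.le_last _) h
        rw [← h3]
        exact (hj1 _).symm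
      · rfl
    have e2 : D.2 (Fin.last _) = C.2 (Fin.last _) := by
      rw [hD2, if_neg (not_lt.2 (Fin.le_last _))]
    exact Prod.ext (congrArg (fun n => n + 1) e1) (congrArg (fun n => n + 1) e2)
  rw [← h2]
  exact h1

theorem INS (hRCZ : RCZ_stmt) (hCPA : CPA_stmt) : INS_stmt := by
  intro s ω a C C' hC hC' hg hg' hω hω' hmin hmin' hne
  by_contra hlt
  rw [not_le] at hlt
  change isC (k := (s + 1) * s + s + 1) C at hC
  change isC (k := (s + 1) * s + s + 1) C' at hC'
  have hmem' : ∀ i t, INS_c C' i t ∈ cls (zr s).2 C' := fun i t => (INS_cls hRCZ C' _).2 ⟨i, t, rfl⟩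
  -- a layer without new cells
  obtain ⟨j, hj⟩ : ∃ j : Fin (s + 1), ∀ t, INS_c C' j t ∈ cls (zr s).2 C := by
    by_contra hcon
    push Not at hcon
    choose u hu using hcon
    refine absurd hlt (not_lt.2 ?_)
    have hinj : Function.Injective fun i : Fin (s + 1) => INS_c C' i (u i) := by
      intro i i' he
      rcases lt_trichotomy i i' with h | h | h
      · have h1 := (INS_o1 hC' h (u i) (u i')).1
        change INS_c C' i (u i) = INS_c C' i' (u i') at he
        rw [he] at h1
        exact absurd h1 (lt_irrefl _)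
      · exact h
      · have h1 := (INS_o1 hC' h (u i') (u i)).1
        change INS_c C' i (u i) = INS_c C' i' (u i') at he
        rw [he] at h1
        exact absurd h1 (lt_irrefl _)
    calc s + 1 = (Finset.univ.image fun i : Fin (s + 1) => INS_c C' i (u i)).card := by
          rw [Finset.card_image_of_injective _ hinj, Finset.card_univ, Fintype.card_fin]
      _ ≤ _ := by
          refine Finset.card_le_card fun c hc => ?_
          obtain ⟨i, -, rfl⟩ := Finset.mem_image.1 hc
          exact Finset.mem_sdiff.2 ⟨hmem' i (u i), hu i⟩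
  -- every layer has an old cell
  have hold : ∀ i : Fin (s + 1), ∃ t, INS_c C' i t ∈ cls (zr s).2 C := by
    intro i
    by_contra hcon
    push Not at hcon
    refine absurd hlt (not_lt.2 ?_)
    have hinj : Function.Injective fun t : Fin (s + 1) => INS_c C' i t := by
      intro t t' he
      change INS_c C' i t = INS_c C' i t' at he
      rcases lt_trichotomy t t' with h | h | h
      · have h1 := (INS_o2 hC' i h).1
        rw [he] at h1
        exact absurd h1 (lt_irrefl _)
      · exact h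
      · have h1 := (INS_o2 hC' i h).1
        rw [he] at h1
        exact absurd h1 (lt_irrefl _)
    calc s + 1 = (Finset.univ.image fun t : Fin (s + 1) => INS_c C' i t).card := by
          rw [Finset.card_image_of_injective _ hinj, Finset.card_univ, Fintype.card_fin]
      _ ≤ _ := by
          refine Finset.card_le_card fun c hc => ?_
          obtain ⟨t, -, rfl⟩ := Finset.mem_image.1 hc
          exact Finset.mem_sdiff.2 ⟨hmem' i t, hcon t⟩
  choose u hu using hold
  have hu' : ∀ i, ∃ l τ, INS_c C' i (u i) = INS_c C l τ := fun i => (INS_cls hRCZ C _).1 (hu i)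
  choose φ τ hφ using hu'
  have hφm : StrictMono φ := by
    intro i i' h
    obtain ⟨h1, h2⟩ := INS_o1 hC' h (u i) (u i')
    rw [hφ i, hφ i'] at h1 h2
    exact INS_dec hC h1 h2
  have hφi : φ j = j := congrFun (INS_id hφm) j
  -- the layer `j` is the same
  have hl : ∀ t, ∃ τ', INS_c C' j t = INS_c C j τ' := by
    intro t
    obtain ⟨l, τ', hlτ⟩ := (INS_cls hRCZ C _).1 (hj t)
    have h1 : l = j := by
      rcases lt_trichotomy l j with h | h | h
      · exfalso
        have h2 := INS_o1 hC h τ' (τ j)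
        have h3 := hφ j
        rw [hφi] at h3
        rw [← hlτ, ← h3] at h2
        exact lt_irrefl j (INS_dec hC' h2.1 h2.2)
      · exact h
      · exfalso
        have h2 := INS_o1 hC h (τ j) τ'
        have h3 := hφ j
        rw [hφi] at h3
        rw [← hlτ, ← h3] at h2
        exact lt_irrefl j (INS_dec hC' h2.1 h2.2)
    rw [h1] at hlτ
    exact ⟨τ', hlτ⟩
  choose σ hσ using hl
  have hσm : StrictMono σ := by
    intro t t' h
    have h1 := (INS_o2 hC' j h).1
    rw [hσ t, hσ t'] at h1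
    exact INS_same hC h1
  have hag : ∀ t, INS_c C' j t = INS_c C j t := by
    intro t
    have h1 : σ t = t := congrFun (INS_id hσm) t
    rw [hσ t, h1]
  have hDD := INS_hyb hRCZ hCPA hC hC' hg hg' hω hω' j hag
  have hDD' := INS_hyb hRCZ hCPA hC' hC hg' hg hω' hω j fun t => (hag t).symm
  have hT := hCPA.2.1 _ (zr s).2 C ω a hC hg hω
  have hT' := hCPA.2.1 _ (zr s).2 C' ω a hC' hg' hω'
  rcases le_or_gt (tp C').1 (tp C).1 with h | h
  · have h1 := hmin _ hDD ⟨h, le_rfl⟩
    have h2 : (tp C').1 = (tp C).1 := by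
      have h5 := congrArg Prod.fst h1
      exact h5
    rcases le_total (tp C).2 (tp C').2 with h3 | h3
    · exact hne (hmin' _ hT ⟨h2.ge, h3⟩)
    · exact hne (hmin _ hT' ⟨h2.le, h3⟩).symm
  · have h1 := hmin' _ hDD' ⟨h.le, le_rfl⟩
    have h2 : (tp C).1 = (tp C').1 := by
      have h5 := congrArg Prod.fst h1
      exact h5
    omega

end

end Pool.Agent.MSW
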