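import Pool.Agent.helper47.MSW.SpecA
import Pool.Agent.helper47.MSW.SpecB

/-! Row msw:RC1 (MP_a87880_co): lower bound for `A1`. -/

set_option autoImplicit false

namespace Pool.Agent.MSW

open Equiv Finset Function MeasureTheory Pool.Agent.helper48.PP
open Pool.Agent.DSW (Pr Has GP wt)
open scoped ENNReal Classical

noncomputable section

theorem RC1_A (hGEW : GEW_stmt) {H : ℕ} (hH : 1 ≤ H) {a b : ℕ} (h : b ≤ a + 2 * H) :
    ta H ^ a ≤ 3 * ta H ^ b := by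
  obtain ⟨⟨h1, -⟩, -, ⟨h3, -⟩, -⟩ := hGEW H hH
  have h4 : ta H ^ (a + 2 * H) ≤ ta H ^ b := pow_le_pow_right_of_le_one' h1 h
  have h5 : (3 : ℝ≥0∞) * ENNReal.ofReal (1 / 3) = 1 := by
    rw [show (3 : ℝ≥0∞) = ENNReal.ofReal 3 by norm_num, ← ENNReal.ofReal_mul (by norm_num)]
    norm_num
  calc ta H ^ a = 3 * (ta H ^ a * ENNReal.ofReal (1 / 3)) := by
        rw [mul_left_comm, h5, mul_one]
    _ ≤ 3 * (ta H ^ a * ta H ^ (2 * H)) := by gcongr
    _ = 3 * ta H ^ (a + 2 * H) := by rw [pow_add]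
    _ ≤ 3 * ta H ^ b := by gcongr

/-- neighbours -/
def RC1_N (H : ℕ) (q : Pt) : Finset Pt :=
  (Finset.range (nm q + 2 * H + 1) ×ˢ Finset.range (nm q + 2 * H + 1)).filter
    fun q' => ¬ q ≤ q' ∧ ¬ q' ≤ q ∧ nm q' ≤ nm q + 2 * H

theorem RC1_memN {H : ℕ} {q q' : Pt} :
    q' ∈ RC1_N H q ↔ ¬ q ≤ q' ∧ ¬ q' ≤ q ∧ nm q' ≤ nm q + 2 * H := by
  unfold RC1_N
  rw [Finset.mem_filter, Finset.mem_product, Finset.mem_range, Finset.mem_range]
  refine ⟨fun h => h.2, fun h => ⟨?_, h⟩⟩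
  have h1 := h.2.2
  unfold nm at h1 ⊢
  constructor <;> omega

/-- isolated -/
def RC1_I (H : ℕ) (X : List Pat) (q : Pt) : Set Om :=
  {ω | mnU X ω q ∧ ∀ q' ∈ RC1_N H q, ¬ mnU X ω q'}

/-- the event for the atom -/
def RC1_B (H : ℕ) (b : Pat) (q : Pt) : Set Om := {ω | HP b.2 ω q (q + (H, H))}

/-- the cells -/
def RC1_F (H : ℕ) (q : Pt) : Finset Pt := box 0 q ∪ (RC1_N H q).biUnion fun q' => box 0 q'

theorem RC1_depI (hHMN : HMN_stmt) (H : ℕ) (X : List Pat) (q : Pt) :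
    Dep (RC1_F H q) (RC1_I H X q) := by
  intro ω ω' h
  have h1 := hHMN.2.2.1 X q ω ω' (fun c hc => h c (Finset.mem_union_left _ hc))
  refine and_congr h1 (forall₂_congr fun q' hq' => not_congr (hHMN.2.2.1 X q' ω ω' fun c hc =>
    h c (Finset.mem_union_right _ (Finset.mem_biUnion.2 ⟨q', hq', hc⟩))))

theorem RC1_disj (H : ℕ) (q : Pt) : Disjoint (RC1_F H q) (box q (q + (H, H))) := by
  rw [Finset.disjoint_left]
  intro c hc hc'
  unfold RC1_F at hc
  rw [mem_box] at hc'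
  rw [Finset.mem_union, Finset.mem_biUnion] at hc
  rcases hc with hc | ⟨q', hq', hc⟩
  · rw [mem_box] at hc
    omega
  · rw [mem_box] at hc
    rw [RC1_memN] at hq'
    exact hq'.1 ⟨by omega, by omega⟩

theorem RC1_uniq (hHMN : HMN_stmt) {H : ℕ} {X : List Pat} {q q' : Pt} {ω : Om}
    (h : ω ∈ RC1_I H X q) (h' : ω ∈ RC1_I H X q') : q = q' := by
  by_contra hne
  have h1 : ¬ q ≤ q' := fun hh => hne (hHMN.2.1 X ω q q' h.1 h'.1 hh)
  have h2 : ¬ q' ≤ q := fun hh => hne (hHMN.2.1 X ω q' q h'.1 h.1 hh).symm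
  have h3 : ¬ (nm q' ≤ nm q + 2 * H) := fun hh => h.2 q' (RC1_memN.2 ⟨h1, h2, hh⟩) h'.1
  have h4 : ¬ (nm q ≤ nm q' + 2 * H) := fun hh => h'.2 q (RC1_memN.2 ⟨h2, h1, hh⟩) h.1
  omega

/-- the first sum -/
theorem RC1_S1 (hMUM : MUM_stmt) (hHLA : HLA_stmt) (hHMN : HMN_stmt) (hGEW : GEW_stmt) {H : ℕ}
    (hH : 1 ≤ H) {p : ℝ} (hp : 0 ≤ p) (hp1 : p ≤ 1) (X : List Pat) (b : Pat) :
    ∑' q : Pt, ta H ^ (2 * nm q) * Pm p (RC1_I H X q ∩ RC1_B H b q) ≤ 9 * A1 H p (X ++ [b]) := by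
  have hmeas : ∀ q : Pt, MeasurableSet (RC1_I H X q ∩ RC1_B H b q) := fun q =>
    (hMUM p _ _ hp hp1 ((RC1_depI hHMN H X q).inter
      (hHLA.2.2.2.2.2.1 _ b.2 q (q + (H, H))))).1
  have hmz : ∀ z : Pt, MeasurableSet {ω | mnU (X ++ [b]) ω z} := fun z =>
    (hMUM p _ _ hp hp1 (hHMN.2.2.1 (X ++ [b]) z)).1
  have h1 : ∀ q : Pt, ta H ^ (2 * nm q) * Pm p (RC1_I H X q ∩ RC1_B H b q) ≤
      ∑' z : Pt, 9 * ta H ^ (2 * nm z) *
        Pm p (RC1_I H X q ∩ RC1_B H b q ∩ {ω | mnU (X ++ [b]) ω z}) := by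
    intro q
    have h2 : RC1_I H X q ∩ RC1_B H b q ⊆ ⋃ z : Pt, if z ≤ q + (H, H) then
        RC1_I H X q ∩ RC1_B H b q ∩ {ω | mnU (X ++ [b]) ω z} else ∅ := by
      intro ω hω
      have h3 : HL (X ++ [b]) ω 0 (q + (H, H)) :=
        (hHLA.2.1 X [b] ω 0 (q + (H, H))).2 ⟨q, hω.1.1.1, (hHLA.2.2.2.2.2.2 b ω _ _).2 hω.2⟩
      obtain ⟨z, hz, hz'⟩ := hHMN.1 _ _ _ h3
      rw [Set.mem_iUnion]
      refine ⟨z, ?_⟩
      rw [if_pos hz]
      exact ⟨hω, hz'⟩
    calc ta H ^ (2 * nm q) * Pm p (RC1_I H X q ∩ RC1_B H b q)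
        ≤ ta H ^ (2 * nm q) * ∑' z : Pt, Pm p (if z ≤ q + (H, H) then
          RC1_I H X q ∩ RC1_B H b q ∩ {ω | mnU (X ++ [b]) ω z} else ∅) := by
          gcongr
          exact (measure_mono h2).trans (measure_iUnion_le _)
      _ = ∑' z : Pt, ta H ^ (2 * nm q) * Pm p (if z ≤ q + (H, H) then
          RC1_I H X q ∩ RC1_B H b q ∩ {ω | mnU (X ++ [b]) ω z} else ∅) := ENNReal.tsum_mul_left.symm
      _ ≤ _ := by
          refine ENNReal.tsum_le_tsum fun z => ?_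
          split_ifs with hz
          · gcongr
            have h4 : nm z ≤ nm q + 2 * H := by
              have h5 := hz.1
              have h6 := hz.2
              simp only [Prod.fst_add, Prod.snd_add] at h5 h6
              unfold nm
              omega
            have h5 := RC1_A hGEW hH h4
            calc ta H ^ (2 * nm q) = ta H ^ nm q * ta H ^ nm q := by rw [two_mul, pow_add]
              _ ≤ (3 * ta H ^ nm z) * (3 * ta H ^ nm z) := by gcongr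
              _ = 9 * ta H ^ (2 * nm z) := by
                rw [two_mul, pow_add, mul_mul_mul_comm]
                norm_num
          · rw [measure_empty, mul_zero]
            exact zero_le
  calc ∑' q : Pt, ta H ^ (2 * nm q) * Pm p (RC1_I H X q ∩ RC1_B H b q)
      ≤ ∑' q : Pt, ∑' z : Pt, 9 * ta H ^ (2 * nm z) *
        Pm p (RC1_I H X q ∩ RC1_B H b q ∩ {ω | mnU (X ++ [b]) ω z}) := ENNReal.tsum_le_tsum h1
    _ = ∑' z : Pt, ∑' q : Pt, 9 * ta H ^ (2 * nm z) *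
        Pm p (RC1_I H X q ∩ RC1_B H b q ∩ {ω | mnU (X ++ [b]) ω z}) := ENNReal.tsum_comm
    _ = ∑' z : Pt, 9 * ta H ^ (2 * nm z) * ∑' q : Pt,
        Pm p (RC1_I H X q ∩ RC1_B H b q ∩ {ω | mnU (X ++ [b]) ω z}) :=
          tsum_congr fun z => ENNReal.tsum_mul_left
    _ ≤ ∑' z : Pt, 9 * ta H ^ (2 * nm z) * Pm p {ω | mnU (X ++ [b]) ω z} := by
          refine ENNReal.tsum_le_tsum fun z => ?_
          gcongr
          refine (tsum_meas_le_meas_iUnion_of_disjoint (Pm p)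
            (fun q => (hmeas q).inter (hmz z)) ?_).trans (measure_mono ?_)
          · intro q q' hqq'
            rw [Function.onFun, Set.disjoint_left]
            rintro ω ⟨⟨h, -⟩, -⟩ ⟨⟨h', -⟩, -⟩
            exact hqq' (RC1_uniq hHMN h h')
          · exact Set.iUnion_subset fun q => Set.inter_subset_right
    _ = 9 * A1 H p (X ++ [b]) := by
          unfold A1
          rw [← ENNReal.tsum_mul_left]
          exact tsum_congr fun z => mul_assoc _ _ _

/-- the second sum -/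
theorem RC1_S2 (hHMN : HMN_stmt) (hGEW : GEW_stmt) {H : ℕ} (hH : 1 ≤ H) (p : ℝ) (X : List Pat) :
    A1 H p X ≤ ∑' q : Pt, ta H ^ (2 * nm q) * Pm p (RC1_I H X q) + 3 * A2 H p X := by
  have h1 : ∀ q : Pt, ta H ^ (2 * nm q) * Pm p {ω | mnU X ω q} ≤
      ta H ^ (2 * nm q) * Pm p (RC1_I H X q) + ∑' q' : Pt, 3 * (if q = q' then 0 else
        ta H ^ (nm q + nm q') * Pm p {ω | mnU X ω q ∧ mnU X ω q'}) := by
    intro q
    have h2 : {ω | mnU X ω q} ⊆ RC1_I H X q ∪ ⋃ q' : Pt, if q' ∈ RC1_N H q then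
        {ω | mnU X ω q ∧ mnU X ω q'} else ∅ := by
      intro ω hω
      by_cases h : ∀ q' ∈ RC1_N H q, ¬ mnU X ω q'
      · exact Or.inl ⟨hω, h⟩
      · push Not at h
        obtain ⟨q', hq', h'⟩ := h
        refine Or.inr ?_
        rw [Set.mem_iUnion]
        refine ⟨q', ?_⟩
        rw [if_pos hq']
        exact ⟨hω, h'⟩
    calc ta H ^ (2 * nm q) * Pm p {ω | mnU X ω q}
        ≤ ta H ^ (2 * nm q) * (Pm p (RC1_I H X q) + ∑' q' : Pt, Pm p (if q' ∈ RC1_N H q then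
        {ω | mnU X ω q ∧ mnU X ω q'} else ∅)) := by
          gcongr
          refine (measure_mono h2).trans ((measure_union_le _ _).trans ?_)
          gcongr
          exact measure_iUnion_le _
      _ = ta H ^ (2 * nm q) * Pm p (RC1_I H X q) + ∑' q' : Pt, ta H ^ (2 * nm q) *
          Pm p (if q' ∈ RC1_N H q then {ω | mnU X ω q ∧ mnU X ω q'} else ∅) := by
          rw [mul_add, ENNReal.tsum_mul_left]
      _ ≤ _ := by
          refine add_le_add le_rfl (ENNReal.tsum_le_tsum fun q' => ?_)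
          split_ifs with hq' heq heq
          · exfalso
            rw [RC1_memN] at hq'
            exact hq'.1 heq.le
          · rw [RC1_memN] at hq'
            rw [← mul_assoc]
            gcongr
            calc ta H ^ (2 * nm q) = ta H ^ nm q * ta H ^ nm q := by rw [two_mul, pow_add]
              _ ≤ ta H ^ nm q * (3 * ta H ^ nm q') := by
                gcongr
                exact RC1_A hGEW hH hq'.2.2
              _ = 3 * ta H ^ (nm q + nm q') := by rw [pow_add, mul_left_comm]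
          · rw [measure_empty, mul_zero]
            exact zero_le
          · rw [measure_empty, mul_zero]
            exact zero_le
  calc A1 H p X ≤ ∑' q : Pt, (ta H ^ (2 * nm q) * Pm p (RC1_I H X q) +
        ∑' q' : Pt, 3 * (if q = q' then 0 else
        ta H ^ (nm q + nm q') * Pm p {ω | mnU X ω q ∧ mnU X ω q'})) := ENNReal.tsum_le_tsum h1
    _ = _ := by
        rw [ENNReal.tsum_add]
        congr 1
        unfold A2
        rw [← ENNReal.tsum_mul_left]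
        symm
        exact ENNReal.tsum_prod'

theorem RC1 (hMUM : MUM_stmt) (hIND : IND_stmt) (hHLA : HLA_stmt) (hHMN : HMN_stmt)
    (hTRL : TRL_stmt) (hLOB : LOB_stmt) (hGEW : GEW_stmt) : RC1_stmt := by
  intro M hM
  have hM' : (1 : ℝ) ≤ M := by exact_mod_cast hM
  have hM2 : (1 : ℝ) ≤ 8 * (M : ℝ) ^ 2 := by nlinarith
  have hMq : 1 / (8 * (M : ℝ) ^ 2) ≤ 1 := by
    rw [div_le_one (by positivity)]
    exact hM2
  refine ⟨1 / 9 * (1 / (8 * (M : ℝ) ^ 2)) ^ M, by positivity, ?_, ?_⟩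
  · have h1 : (1 / (8 * (M : ℝ) ^ 2)) ^ M ≤ 1 := pow_le_one₀ (by positivity) hMq
    nlinarith
  · intro θ H X b hθ hθ1 hMH hb
    have hH : 1 ≤ H := hM.trans hMH
    have hH' : (1 : ℝ) ≤ H := by exact_mod_cast hH
    have hp : 0 ≤ den θ H := by unfold den; positivity
    have hp1 : den θ H ≤ 1 := by
      unfold den
      rw [div_le_one (by positivity)]
      nlinarith
    have hB : ∀ q : Pt, ENNReal.ofReal ((θ / (8 * ((b.1 + 1 : ℕ) : ℝ) ^ 2)) ^ (b.1 + 1)) ≤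
        Pm (den θ H) (RC1_B H b q) := by
      intro q
      have h1 := hTRL.2 [b] (den θ H) q (H, H) hp hp1
      have h2 : ∀ a z : Pt, {ω | HL [b] ω a z} = {ω | HP b.2 ω a z} := fun a z => by
        ext ω
        exact hHLA.2.2.2.2.2.2 b ω a z
      rw [h2, h2] at h1
      unfold RC1_B
      rw [h1]
      exact hLOB (b.1 + 1) b.2 H θ (by omega) (by omega) hθ hθ1
    have hI : ∀ q : Pt, Pm (den θ H) (RC1_I H X q ∩ RC1_B H b q) =
        Pm (den θ H) (RC1_I H X q) * Pm (den θ H) (RC1_B H b q) := fun q =>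
      hIND (den θ H) _ _ _ _ hp hp1 (RC1_depI hHMN H X q)
        (hHLA.2.2.2.2.2.1 _ b.2 q (q + (H, H))) (RC1_disj H q)
    have hS1 := RC1_S1 hMUM hHLA hHMN hGEW hH hp hp1 X b
    have hS2 := RC1_S2 hHMN hGEW hH (den θ H) X
    obtain ⟨c, hc⟩ : ∃ c : ℝ, c = 1 / 9 * (1 / (8 * (M : ℝ) ^ 2)) ^ M := ⟨_, rfl⟩
    rw [← hc]
    have hcθ : 9 * (c * θ ^ (b.1 + 1)) ≤ (θ / (8 * ((b.1 + 1 : ℕ) : ℝ) ^ 2)) ^ (b.1 + 1) := by
      have h1 : (1 / (8 * (M : ℝ) ^ 2)) ^ M ≤ (1 / (8 * ((b.1 + 1 : ℕ) : ℝ) ^ 2)) ^ (b.1 + 1) := by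
        have h2 : (1 / (8 * (M : ℝ) ^ 2)) ^ M ≤ (1 / (8 * (M : ℝ) ^ 2)) ^ (b.1 + 1) :=
          pow_le_pow_of_le_one (by positivity) hMq hb
        refine h2.trans (pow_le_pow_left₀ (by positivity) ?_ _)
        have h3 : ((b.1 + 1 : ℕ) : ℝ) ≤ M := by exact_mod_cast hb
        have h4 : (0 : ℝ) < ((b.1 + 1 : ℕ) : ℝ) := by positivity
        gcongr
      calc 9 * (c * θ ^ (b.1 + 1)) = (1 / (8 * (M : ℝ) ^ 2)) ^ M * θ ^ (b.1 + 1) := by
            rw [hc]; ring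
        _ ≤ (1 / (8 * ((b.1 + 1 : ℕ) : ℝ) ^ 2)) ^ (b.1 + 1) * θ ^ (b.1 + 1) := by gcongr
        _ = _ := by rw [← mul_pow]; congr 1; ring
    have hc0 : 0 ≤ c * θ ^ (b.1 + 1) := by rw [hc]; positivity
    have hkey : 9 * ENNReal.ofReal (c * θ ^ (b.1 + 1)) *
        ∑' q : Pt, ta H ^ (2 * nm q) * Pm (den θ H) (RC1_I H X q) ≤
        9 * A1 H (den θ H) (X ++ [b]) := by
      refine le_trans ?_ hS1
      rw [← ENNReal.tsum_mul_left]
      refine ENNReal.tsum_le_tsum fun q => ?_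
      rw [hI q]
      have h1 : 9 * ENNReal.ofReal (c * θ ^ (b.1 + 1)) ≤ Pm (den θ H) (RC1_B H b q) := by
        refine le_trans ?_ (hB q)
        rw [show (9 : ℝ≥0∞) = ENNReal.ofReal 9 by norm_num, ← ENNReal.ofReal_mul (by norm_num)]
        exact ENNReal.ofReal_le_ofReal hcθ
      calc 9 * ENNReal.ofReal (c * θ ^ (b.1 + 1)) *
            (ta H ^ (2 * nm q) * Pm (den θ H) (RC1_I H X q))
          ≤ Pm (den θ H) (RC1_B H b q) * (ta H ^ (2 * nm q) * Pm (den θ H) (RC1_I H X q)) := by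
            gcongr
        _ = _ := by rw [mul_comm, mul_assoc]
    have hkey' : ENNReal.ofReal (c * θ ^ (b.1 + 1)) *
        ∑' q : Pt, ta H ^ (2 * nm q) * Pm (den θ H) (RC1_I H X q) ≤
        A1 H (den θ H) (X ++ [b]) := by
      rw [mul_assoc] at hkey
      exact (ENNReal.mul_le_mul_iff_right (by norm_num) (by norm_num)).1 hkey
    calc ENNReal.ofReal (c * θ ^ (b.1 + 1)) * A1 H (den θ H) X
        ≤ ENNReal.ofReal (c * θ ^ (b.1 + 1)) *
          (∑' q : Pt, ta H ^ (2 * nm q) * Pm (den θ H) (RC1_I H X q) +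
            3 * A2 H (den θ H) X) := by gcongr
      _ = ENNReal.ofReal (c * θ ^ (b.1 + 1)) *
          ∑' q : Pt, ta H ^ (2 * nm q) * Pm (den θ H) (RC1_I H X q) +
            ENNReal.ofReal (3 * c * θ ^ (b.1 + 1)) * A2 H (den θ H) X := by
          rw [mul_add]
          congr 1
          rw [← mul_assoc]
          congr 1
          rw [show (3 : ℝ≥0∞) = ENNReal.ofReal 3 by norm_num, ← ENNReal.ofReal_mul hc0]
          congr 1
          ring
      _ ≤ _ := by gcongr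

end

end Pool.Agent.MSW
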