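import Pool.Agent.helper47.MSW.SpecA
import Pool.Agent.helper47.MSW.SpecB

/-! Row msw:RC2 (MP_a87880_co): the recursion for pairs. -/

set_option autoImplicit false

namespace Pool.Agent.MSW

open Equiv Finset Function MeasureTheory Pool.Agent.helper48.PP
open Pool.Agent.DSW (Pr Has GP wt)
open scoped ENNReal Classical

noncomputable section

/-- union bound, one family -/
theorem RC2_sum1 {ι : Type} [Countable ι] (μ : Measure Om) (g : Pt × Pt → ℝ≥0∞) (E : ι → Set Om)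
    (f : ι → Pt × Pt) :
    ∑' zz : Pt × Pt, g zz * μ (⋃ i, if f i = zz then E i else ∅) ≤
      ∑' i, g (f i) * μ (E i) := by
  calc ∑' zz : Pt × Pt, g zz * μ (⋃ i, if f i = zz then E i else ∅)
      ≤ ∑' zz : Pt × Pt, ∑' i, g zz * μ (if f i = zz then E i else ∅) := by
        refine ENNReal.tsum_le_tsum fun zz => ?_
        rw [ENNReal.tsum_mul_left]
        gcongr
        exact measure_iUnion_le _
    _ = ∑' i, ∑' zz : Pt × Pt, g zz * μ (if f i = zz then E i else ∅) := ENNReal.tsum_comm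
    _ = ∑' i, g (f i) * μ (E i) := by
        refine tsum_congr fun i => ?_
        rw [tsum_eq_single (f i)]
        · rw [if_pos rfl]
        · intro zz hzz
          rw [if_neg (Ne.symm hzz), measure_empty, mul_zero]

/-- union bound, two families -/
theorem RC2_sum {ι κ : Type} [Countable ι] [Countable κ] (μ : Measure Om) (g : Pt × Pt → ℝ≥0∞)
    (S : Pt × Pt → Set Om) (E : ι → Set Om) (f : ι → Pt × Pt) (E' : κ → Set Om)
    (f' : κ → Pt × Pt)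
    (h : ∀ zz, ∀ ω ∈ S zz, (∃ i, f i = zz ∧ ω ∈ E i) ∨ (∃ i, f' i = zz ∧ ω ∈ E' i)) :
    ∑' zz, g zz * μ (S zz) ≤ ∑' i, g (f i) * μ (E i) + ∑' i, g (f' i) * μ (E' i) := by
  have h1 : ∀ zz, S zz ⊆ (⋃ i, if f i = zz then E i else ∅) ∪
      ⋃ i, if f' i = zz then E' i else ∅ := by
    intro zz ω hω
    rcases h zz ω hω with ⟨i, hi, hi'⟩ | ⟨i, hi, hi'⟩
    · refine Or.inl ?_
      rw [Set.mem_iUnion]
      refine ⟨i, ?_⟩
      rw [if_pos hi]
      exact hi'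
    · refine Or.inr ?_
      rw [Set.mem_iUnion]
      refine ⟨i, ?_⟩
      rw [if_pos hi]
      exact hi'
  calc ∑' zz, g zz * μ (S zz)
      ≤ ∑' zz, (g zz * μ (⋃ i, if f i = zz then E i else ∅) +
          g zz * μ (⋃ i, if f' i = zz then E' i else ∅)) := by
        refine ENNReal.tsum_le_tsum fun zz => ?_
        rw [← mul_add]
        gcongr
        exact (measure_mono (h1 zz)).trans (measure_union_le _ _)
    _ = ∑' zz, g zz * μ (⋃ i, if f i = zz then E i else ∅) +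
          ∑' zz, g zz * μ (⋃ i, if f' i = zz then E' i else ∅) := ENNReal.tsum_add
    _ ≤ _ := add_le_add (RC2_sum1 μ g E f) (RC2_sum1 μ g E' f')

/-- the cells of two copies are all `true` -/
def RC2_T {k : ℕ} (τ : Perm (Fin k)) (CC : Cp k × Cp k) : Set Om :=
  {ω | ∀ c ∈ cls τ CC.1 ∪ cls τ CC.2, ω c = true}

/-- cells of a copy are above its bound -/
theorem RC2_ge {k : ℕ} {τ : Perm (Fin k)} {C : Cp k} {a c : Pt} (h : geP a C) (hc : c ∈ cls τ C) :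
    a ≤ c := by
  unfold cls at hc
  rw [Finset.mem_image] at hc
  obtain ⟨j, -, rfl⟩ := hc
  exact ⟨(h j).1, (h (τ j)).2⟩

theorem RC2_depT {k : ℕ} (τ : Perm (Fin k)) (CC : Cp k × Cp k) :
    Dep (cls τ CC.1 ∪ cls τ CC.2) (RC2_T τ CC) := by
  intro ω ω' h
  refine forall₂_congr fun c hc => ?_
  rw [h c hc]

/-- independence -/
theorem RC2_ind (hHMN : HMN_stmt) (hIND : IND_stmt) (hONE : ONE_stmt) {p : ℝ} (hp : 0 ≤ p)
    (hp1 : p ≤ 1) (X : List Pat) {k : ℕ} (τ : Perm (Fin k)) (q q' : Pt) (CC : Cp k × Cp k)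
    (h1 : geP q CC.1) (h2 : geP q' CC.2) :
    Pm p ({ω | mnU X ω q ∧ mnU X ω q'} ∩ RC2_T τ CC) ≤
      Pm p {ω | mnU X ω q ∧ mnU X ω q'} *
        ENNReal.ofReal p ^ (cls τ CC.1 ∪ cls τ CC.2).card := by
  by_cases hcomp : q ≠ q' ∧ (q ≤ q' ∨ q' ≤ q)
  · have h3 : {ω | mnU X ω q ∧ mnU X ω q'} = ∅ := by
      ext ω
      simp only [Set.mem_ofPred_eq, Set.mem_empty_iff_false, iff_false]
      rintro ⟨h4, h5⟩
      rcases hcomp.2 with h6 | h6
      · exact hcomp.1 (hHMN.2.1 X ω q q' h4 h5 h6)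
      · exact hcomp.1 (hHMN.2.1 X ω q' q h5 h4 h6).symm
    rw [h3, Set.empty_inter, measure_empty]
    exact zero_le
  · have hdep : Dep (box 0 q ∪ box 0 q') {ω | mnU X ω q ∧ mnU X ω q'} :=
      (hHMN.2.2.1 X q).inter (hHMN.2.2.1 X q')
    have hdisj : Disjoint (box 0 q ∪ box 0 q') (cls τ CC.1 ∪ cls τ CC.2) := by
      rw [Finset.disjoint_left]
      intro c hc hc'
      rw [Finset.mem_union, mem_box, mem_box] at hc
      rw [Finset.mem_union] at hc'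
      rcases hc' with hc' | hc'
      · have h5 := RC2_ge h1 hc'
        have h6 := h5.1
        have h7 := h5.2
        rcases hc with hc | hc
        · omega
        · by_cases h8 : q = q'
          · subst h8
            omega
          · exact hcomp ⟨h8, Or.inl ⟨by omega, by omega⟩⟩
      · have h5 := RC2_ge h2 hc'
        have h6 := h5.1
        have h7 := h5.2
        rcases hc with hc | hc
        · by_cases h8 : q = q'
          · subst h8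
            omega
          · exact hcomp ⟨h8, Or.inr ⟨by omega, by omega⟩⟩
        · omega
    rw [hIND p _ _ _ _ hp hp1 hdep (RC2_depT τ CC) hdisj]
    unfold RC2_T
    rw [hONE p _ hp hp1]

/-- the events -/
theorem RC2_cover (hCPA : CPA_stmt) {X : List Pat} {b : Pat} {r : ℕ} (hr : InsP b r) {ω : Om}
    {z z' : Pt} (hz : mnU (X ++ [b]) ω z) (hz' : mnU (X ++ [b]) ω z') (hne : z ≠ z') :
    (∃ (q : Pt) (CC : Cp (b.1 + 1) × Cp (b.1 + 1)), (tp CC.1, tp CC.2) = (z, z') ∧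
      ((isC CC.1 ∧ geP q CC.1) ∧ (isC CC.2 ∧ geP q CC.2) ∧
        r ≤ (cls b.2 CC.2 \ cls b.2 CC.1).card) ∧
      ω ∈ {ω | mnU X ω q ∧ mnU X ω q} ∩ RC2_T b.2 CC) ∨
    (∃ (qq : Pt × Pt) (CC : Cp (b.1 + 1) × Cp (b.1 + 1)), (tp CC.1, tp CC.2) = (z, z') ∧
      qq.1 ≠ qq.2 ∧
      ((isC CC.1 ∧ geP qq.1 CC.1) ∧ (isC CC.2 ∧ geP qq.2 CC.2) ∧
        1 ≤ (cls b.2 CC.2 \ cls b.2 CC.1).card) ∧
      ω ∈ {ω | mnU X ω qq.1 ∧ mnU X ω qq.2} ∩ RC2_T b.2 CC) := by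
  obtain ⟨q, C, hq, hC, hg, hω, rfl⟩ := hCPA.2.2.2.2.1 X b ω z hz
  obtain ⟨q', C', hq', hC', hg', hω', rfl⟩ := hCPA.2.2.2.2.1 X b ω z' hz'
  have hT : ω ∈ RC2_T b.2 (C, C') := by
    intro c hc
    rw [Finset.mem_union] at hc
    rcases hc with hc | hc
    · exact hω c hc
    · exact hω' c hc
  by_cases h : q = q'
  · subst h
    refine Or.inl ⟨q, (C, C'), rfl, ⟨⟨hC, hg⟩, ⟨hC', hg'⟩, ?_⟩, ⟨hq, hq'⟩, hT⟩
    exact hr ω q C C' hC hC' hg hg' hω hω' (hCPA.2.2.2.2.2.1 X b ω _ q hz hq.1)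
      (hCPA.2.2.2.2.2.1 X b ω _ q hz' hq.1) hne
  · refine Or.inr ⟨(q, q'), (C, C'), rfl, h, ⟨⟨hC, hg⟩, ⟨hC', hg'⟩, ?_⟩, ⟨hq, hq'⟩, hT⟩
    rw [Nat.one_le_iff_ne_zero, Ne, Finset.card_eq_zero, Finset.sdiff_eq_empty_iff_subset]
    intro h1
    exact hne (hCPA.2.2.2.2.2.2 _ b.2 C C' hC hC' h1).symm

/-- the constants -/
theorem RC2_K {M w j : ℕ} {θ : ℝ} (hθ : 0 < θ) (hw : w + 1 ≤ M) (hj : j ≤ M) :
    ((w : ℝ) + 2) ^ (w + 1) * (16 * ((w : ℝ) + 1) ^ 2 * θ) ^ (w + 1 + j) ≤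
      ((M : ℝ) + 1) ^ M * (16 * (M : ℝ) ^ 2) ^ (2 * M) * θ ^ (w + 1 + j) := by
  have hw' : (w : ℝ) + 1 ≤ M := by exact_mod_cast hw
  have hw0 : (0 : ℝ) ≤ w := Nat.cast_nonneg _
  have h1 : ((w : ℝ) + 2) ^ (w + 1) ≤ ((M : ℝ) + 1) ^ M := by
    calc ((w : ℝ) + 2) ^ (w + 1) ≤ ((M : ℝ) + 1) ^ (w + 1) :=
          pow_le_pow_left₀ (by positivity) (by linarith) _
      _ ≤ ((M : ℝ) + 1) ^ M := pow_le_pow_right₀ (by linarith) hw
  have h2 : (16 * ((w : ℝ) + 1) ^ 2) ^ (w + 1 + j) ≤ (16 * (M : ℝ) ^ 2) ^ (2 * M) := by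
    calc (16 * ((w : ℝ) + 1) ^ 2) ^ (w + 1 + j) ≤ (16 * (M : ℝ) ^ 2) ^ (w + 1 + j) := by
          refine pow_le_pow_left₀ (by positivity) ?_ _
          gcongr
      _ ≤ (16 * (M : ℝ) ^ 2) ^ (2 * M) := by
          refine pow_le_pow_right₀ ?_ (by omega)
          nlinarith
  rw [mul_pow (16 * ((w : ℝ) + 1) ^ 2), ← mul_assoc]
  gcongr

theorem RC2 (hCPA : CPA_stmt) (hHMN : HMN_stmt) (hIND : IND_stmt) (hONE : ONE_stmt)
    (hPBD : PBD_stmt) : RC2_stmt := by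
  intro M hM
  have hM' : (1 : ℝ) ≤ M := by exact_mod_cast hM
  have hM2 : (1 : ℝ) ≤ 16 * (M : ℝ) ^ 2 := by nlinarith
  refine ⟨((M : ℝ) + 1) ^ M * (16 * (M : ℝ) ^ 2) ^ (2 * M), 1 / (16 * (M : ℝ) ^ 2),
    by positivity, by positivity, ?_, ?_⟩
  · rw [div_le_one (by positivity)]
    exact hM2
  intro θ H X b r hθ hθ0 hH hb hrM hr1 hr
  have hH' : (1 : ℝ) ≤ H := by exact_mod_cast hH
  have hMθ : 16 * (M : ℝ) ^ 2 * θ ≤ 1 := by
    rw [le_div_iff₀ (by positivity)] at hθ0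
    linarith
  have hb' : ((b.1 : ℕ) : ℝ) + 1 ≤ M := by exact_mod_cast hb
  have hb0 : (0 : ℝ) ≤ ((b.1 : ℕ) : ℝ) := Nat.cast_nonneg _
  have hwθ : 16 * ((b.1 : ℝ) + 1) ^ 2 * θ ≤ 1 := by
    refine le_trans ?_ hMθ
    gcongr
  have hθ1 : θ ≤ 1 := by nlinarith
  have hp : 0 ≤ den θ H := by unfold den; positivity
  have hp1 : den θ H ≤ 1 := by
    unfold den
    rw [div_le_one (by positivity)]
    nlinarith
  obtain ⟨μ, hμ⟩ : ∃ μ : Measure Om, μ = Pm (den θ H) := ⟨_, rfl⟩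
  obtain ⟨g, hg⟩ : ∃ g : Pt × Pt → ℝ≥0∞, ∀ zz, g zz = ta H ^ (nm zz.1 + nm zz.2) :=
    ⟨_, fun _ => rfl⟩
  obtain ⟨P, hP⟩ : ∃ P : ℕ → Pt → Pt → Cp (b.1 + 1) × Cp (b.1 + 1) → Prop,
      ∀ j a a' CC, P j a a' CC ↔ ((isC CC.1 ∧ geP a CC.1) ∧ (isC CC.2 ∧ geP a' CC.2) ∧
        j ≤ (cls b.2 CC.2 \ cls b.2 CC.1).card) := ⟨_, fun _ _ _ _ => Iff.rfl⟩
  obtain ⟨K, hK⟩ : ∃ K : ℝ, K = ((M : ℝ) + 1) ^ M * (16 * (M : ℝ) ^ 2) ^ (2 * M) := ⟨_, rfl⟩
  rw [← hK]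
  -- the pair bound with an event
  have hPB : ∀ (j : ℕ) (a a' : Pt), j ≤ M →
      ∑' CC : Cp (b.1 + 1) × Cp (b.1 + 1), g (tp CC.1, tp CC.2) *
        μ (if P j a a' CC then {ω | mnU X ω a ∧ mnU X ω a'} ∩ RC2_T b.2 CC else ∅) ≤
      ENNReal.ofReal (K * θ ^ (b.1 + 1 + j)) *
        (ta H ^ (nm a + nm a') * μ {ω | mnU X ω a ∧ mnU X ω a'}) := by
    intro j a a' hj
    have h1 := hPBD b.1 j H θ b.2 a a' hH hθ hwθ
    calc ∑' CC : Cp (b.1 + 1) × Cp (b.1 + 1), g (tp CC.1, tp CC.2) *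
        μ (if P j a a' CC then {ω | mnU X ω a ∧ mnU X ω a'} ∩ RC2_T b.2 CC else ∅)
        ≤ ∑' CC : Cp (b.1 + 1) × Cp (b.1 + 1), μ {ω | mnU X ω a ∧ mnU X ω a'} *
          (if (isC CC.1 ∧ geP a CC.1) ∧ (isC CC.2 ∧ geP a' CC.2) ∧
            j ≤ (cls b.2 CC.2 \ cls b.2 CC.1).card then
          ENNReal.ofReal (den θ H) ^ (cls b.2 CC.1 ∪ cls b.2 CC.2).card *
            ta H ^ (nm (tp CC.1) + nm (tp CC.2)) else 0) := by
          refine ENNReal.tsum_le_tsum fun CC => ?_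
          by_cases hc : P j a a' CC
          · rw [if_pos hc]
            rw [hP] at hc
            rw [if_pos hc, hg, hμ]
            calc ta H ^ (nm (tp CC.1) + nm (tp CC.2)) *
                  Pm (den θ H) ({ω | mnU X ω a ∧ mnU X ω a'} ∩ RC2_T b.2 CC)
                ≤ ta H ^ (nm (tp CC.1) + nm (tp CC.2)) *
                  (Pm (den θ H) {ω | mnU X ω a ∧ mnU X ω a'} *
                    ENNReal.ofReal (den θ H) ^ (cls b.2 CC.1 ∪ cls b.2 CC.2).card) := by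
                  gcongr
                  exact RC2_ind hHMN hIND hONE hp hp1 X b.2 a a' CC hc.1.2 hc.2.1.2
              _ = _ := by ring
          · rw [if_neg hc, measure_empty, mul_zero]
            exact zero_le
      _ = μ {ω | mnU X ω a ∧ mnU X ω a'} * _ := ENNReal.tsum_mul_left
      _ ≤ μ {ω | mnU X ω a ∧ mnU X ω a'} * (ta H ^ (nm a + nm a') *
          ENNReal.ofReal (((b.1 : ℝ) + 2) ^ (b.1 + 1) *
            (16 * ((b.1 : ℝ) + 1) ^ 2 * θ) ^ (b.1 + 1 + j))) := by gcongr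
      _ ≤ μ {ω | mnU X ω a ∧ mnU X ω a'} * (ta H ^ (nm a + nm a') *
          ENNReal.ofReal (K * θ ^ (b.1 + 1 + j))) := by
          refine mul_le_mul' le_rfl (mul_le_mul' le_rfl (ENNReal.ofReal_le_ofReal ?_))
          rw [hK]
          exact RC2_K hθ hb hj
      _ = _ := by ring
  have hmain := RC2_sum (ι := Pt × (Cp (b.1 + 1) × Cp (b.1 + 1)))
    (κ := (Pt × Pt) × (Cp (b.1 + 1) × Cp (b.1 + 1))) μ g
    (fun zz => if zz.1 = zz.2 then ∅ else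
      {ω | mnU (X ++ [b]) ω zz.1 ∧ mnU (X ++ [b]) ω zz.2})
    (fun i => if P r i.1 i.1 i.2 then {ω | mnU X ω i.1 ∧ mnU X ω i.1} ∩ RC2_T b.2 i.2 else ∅)
    (fun i => (tp i.2.1, tp i.2.2))
    (fun i => if i.1.1 ≠ i.1.2 ∧ P 1 i.1.1 i.1.2 i.2 then
      {ω | mnU X ω i.1.1 ∧ mnU X ω i.1.2} ∩ RC2_T b.2 i.2 else ∅)
    (fun i => (tp i.2.1, tp i.2.2)) (by
      rintro ⟨z, z'⟩ ω hω
      by_cases hzz : z = z'
      · simp only [hzz, if_true] at hω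
        exact absurd hω (Set.notMem_empty _)
      · simp only [hzz, if_false] at hω
        rcases RC2_cover hCPA hr hω.1 hω.2 hzz with ⟨q, CC, h1, h2, h3⟩ | ⟨qq, CC, h1, h2, h3, h4⟩
        · refine Or.inl ⟨(q, CC), h1, ?_⟩
          have h5 : P r q q CC := (hP _ _ _ _).2 h2
          simp only [h5, if_true]
          exact h3
        · refine Or.inr ⟨(qq, CC), h1, ?_⟩
          have h5 : qq.1 ≠ qq.2 ∧ P 1 qq.1 qq.2 CC := ⟨h2, (hP _ _ _ _).2 h3⟩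
          rw [if_pos h5]
          exact h4)
  have hL : A2 H (den θ H) (X ++ [b]) = ∑' zz : Pt × Pt, g zz * μ (if zz.1 = zz.2 then ∅ else
      {ω | mnU (X ++ [b]) ω zz.1 ∧ mnU (X ++ [b]) ω zz.2}) := by
    unfold A2
    refine tsum_congr fun zz => ?_
    split_ifs with h
    · rw [measure_empty, mul_zero]
    · rw [hg, hμ]
  rw [hL]
  refine hmain.trans (add_le_add ?_ ?_)
  · rw [ENNReal.tsum_prod']
    unfold A1
    rw [← ENNReal.tsum_mul_left]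
    refine ENNReal.tsum_le_tsum fun q => ?_
    have h1 := hPB r q q hrM
    refine h1.trans (le_of_eq ?_)
    rw [two_mul, hμ]
    congr 3
    ext ω
    simp only [Set.mem_ofPred_eq, and_self]
  · rw [ENNReal.tsum_prod']
    unfold A2
    rw [← ENNReal.tsum_mul_left]
    refine ENNReal.tsum_le_tsum fun qq => ?_
    by_cases h : qq.1 = qq.2
    · rw [if_pos h, mul_zero, nonpos_iff_eq_zero, ENNReal.tsum_eq_zero]
      intro CC
      rw [if_neg (fun h1 => h1.1 h), measure_empty, mul_zero]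
    · rw [if_neg h]
      have h1 := hPB 1 qq.1 qq.2 hM
      rw [← hμ]
      refine le_trans (le_of_eq (tsum_congr fun CC => ?_)) h1
      have h2 : (qq.1 ≠ qq.2 ∧ P 1 qq.1 qq.2 CC) ↔ P 1 qq.1 qq.2 CC := ⟨fun h => h.2, fun h' => ⟨h, h'⟩⟩
      simp only [h2]

end

end Pool.Agent.MSW
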