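import Pool.Agent.helper47.MSW.SpecA
import Pool.Agent.helper47.MSW.SpecD

/-! Row msw:WIN (MP_a87880_co): the window. -/

set_option autoImplicit false

namespace Pool.Agent.MSW

open Equiv Finset Function MeasureTheory Pool.Agent.helper48.PP
open Pool.Agent.DSW (Pr Has GP wt)
open scoped ENNReal Classical

noncomputable section

/-- one box -/
theorem WIN_pt (hWLO : WLO_stmt) (hWH1 : WH1_stmt) {k B H : ℕ} (σ : Perm (Fin k)) {θ K : ℝ}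
    (hθ : 0 < θ) (hθ1 : θ ≤ 1) (hH : 1 ≤ H) (hK : K = 4 * (B : ℝ) ^ 2) {w : Pt}
    (hw : nm w ≤ 2 * B * k * H) :
    Pm (den θ H) {ω | HP σ ω 0 w} ≤
      Pm (den θ H) {ω | HP σ ω 0 w ∧ (tr ω 0 w).card ∈ Win K θ k} +
      (ENNReal.ofReal (((⌊θ * (k : ℝ) ^ 2 / K⌋₊ : ℕ) : ℝ) ^ k / ((k.factorial : ℕ) : ℝ) ^ 2) +
      ENNReal.ofReal ((((⌊K * θ * (k : ℝ) ^ 2⌋₊ + 1 : ℕ) : ℝ) / 4) ^ (⌊K * θ * (k : ℝ) ^ 2⌋₊ + 1) /
        (((⌊K * θ * (k : ℝ) ^ 2⌋₊ + 1).factorial : ℕ) : ℝ))) := by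
  have hH' : (1 : ℝ) ≤ H := by exact_mod_cast hH
  have hp : 0 ≤ den θ H := by unfold den; positivity
  have hp1 : den θ H ≤ 1 := by
    unfold den
    rw [div_le_one (by positivity)]
    nlinarith
  obtain ⟨n, hn⟩ : ∃ n : ℕ, n = ⌊θ * (k : ℝ) ^ 2 / K⌋₊ := ⟨_, rfl⟩
  obtain ⟨m, hm⟩ : ∃ m : ℕ, m = ⌊K * θ * (k : ℝ) ^ 2⌋₊ + 1 := ⟨_, rfl⟩
  rw [← hn, ← hm]
  have hsub : {ω | HP σ ω 0 w} ⊆ {ω | HP σ ω 0 w ∧ (tr ω 0 w).card ∈ Win K θ k} ∪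
      ({ω | HP σ ω 0 w ∧ (tr ω 0 w).card ≤ n} ∪ {ω | m ≤ (tr ω 0 w).card}) := by
    intro ω hω
    have hω' : HP σ ω 0 w := hω
    by_cases h1 : (tr ω 0 w).card ≤ n
    · exact Or.inr (Or.inl ⟨hω', h1⟩)
    by_cases h2 : m ≤ (tr ω 0 w).card
    · exact Or.inr (Or.inr h2)
    refine Or.inl ⟨hω', ?_, ?_⟩
    · by_contra h3
      rw [not_le] at h3
      refine h1 ?_
      rw [hn]
      exact Nat.le_floor h3.le
    · by_contra h3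
      rw [not_le] at h3
      refine h2 ?_
      rw [hm, Nat.add_one_le_iff]
      exact (Nat.floor_lt (by rw [hK]; positivity)).2 h3
  refine (measure_mono hsub).trans ((measure_union_le _ _).trans ?_)
  refine add_le_add le_rfl ((measure_union_le _ _).trans (add_le_add ?_ ?_))
  · exact hWLO k σ w n (den θ H) hp hp1
  · refine (hWH1 w m (den θ H) hp hp1).trans (ENNReal.ofReal_le_ofReal ?_)
    have h1 : (w.1 : ℝ) * (w.2 : ℝ) * den θ H ≤ (m : ℝ) / 4 := by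
      have h2 : ((nm w : ℕ) : ℝ) ≤ 2 * B * k * H := by exact_mod_cast hw
      have h3 : ((nm w : ℕ) : ℝ) = (w.1 : ℝ) + (w.2 : ℝ) := by
        unfold nm
        push_cast
        rfl
      have h4 : (w.1 : ℝ) * (w.2 : ℝ) ≤ (B : ℝ) ^ 2 * (k : ℝ) ^ 2 * (H : ℝ) ^ 2 := by
        have h5 : (4 : ℝ) * ((w.1 : ℝ) * (w.2 : ℝ)) ≤ ((w.1 : ℝ) + (w.2 : ℝ)) ^ 2 := by
          nlinarith [sq_nonneg ((w.1 : ℝ) - (w.2 : ℝ))]
        have h6 : ((w.1 : ℝ) + (w.2 : ℝ)) ^ 2 ≤ (2 * B * k * H) ^ 2 := by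
          rw [← h3]
          exact pow_le_pow_left₀ (Nat.cast_nonneg _) h2 _
        nlinarith
      have h7 : (w.1 : ℝ) * (w.2 : ℝ) * den θ H ≤ (B : ℝ) ^ 2 * (k : ℝ) ^ 2 * θ := by
        unfold den
        rw [mul_div_assoc', div_le_iff₀ (by positivity)]
        nlinarith
      have h8 : K * θ * (k : ℝ) ^ 2 < (m : ℝ) := by
        rw [hm]
        push_cast
        exact Nat.lt_floor_add_one _
      rw [hK] at h8
      linarith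
    gcongr

/-- all boxes -/
theorem WIN_sum (hWLO : WLO_stmt) (hWH1 : WH1_stmt) (hWH2 : WH2_stmt) (hGEW : GEW_stmt)
    {k B H : ℕ} (σ : Perm (Fin k)) {θ K : ℝ}
    (hθ : 0 < θ) (hθ1 : θ ≤ 1) (hH : 1 ≤ H) (hK : K = 4 * (B : ℝ) ^ 2) :
    Zp H (den θ H) σ ≤ ZW H (den θ H) σ (Win K θ k) +
      (ENNReal.ofReal (((⌊θ * (k : ℝ) ^ 2 / K⌋₊ : ℕ) : ℝ) ^ k / ((k.factorial : ℕ) : ℝ) ^ 2) +
      ENNReal.ofReal ((((⌊K * θ * (k : ℝ) ^ 2⌋₊ + 1 : ℕ) : ℝ) / 4) ^ (⌊K * θ * (k : ℝ) ^ 2⌋₊ + 1) /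
        (((⌊K * θ * (k : ℝ) ^ 2⌋₊ + 1).factorial : ℕ) : ℝ))) +
      ENNReal.ofReal (4 * (16 * θ / 2 ^ B) ^ k) := by
  obtain ⟨x, hx⟩ : ∃ x : ℝ≥0∞, x =
      ENNReal.ofReal (((⌊θ * (k : ℝ) ^ 2 / K⌋₊ : ℕ) : ℝ) ^ k / ((k.factorial : ℕ) : ℝ) ^ 2) +
      ENNReal.ofReal ((((⌊K * θ * (k : ℝ) ^ 2⌋₊ + 1 : ℕ) : ℝ) / 4) ^ (⌊K * θ * (k : ℝ) ^ 2⌋₊ + 1) /
        (((⌊K * θ * (k : ℝ) ^ 2⌋₊ + 1).factorial : ℕ) : ℝ)) := ⟨_, rfl⟩
  rw [← hx]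
  have h1 : ∀ w : Pt, wt H w.1 * wt H w.2 * Pm (den θ H) {ω | HP σ ω 0 w} ≤
      wt H w.1 * wt H w.2 * Pm (den θ H) {ω | HP σ ω 0 w ∧ (tr ω 0 w).card ∈ Win K θ k} +
      wt H w.1 * wt H w.2 * x +
      (if 2 * B * k * H < nm w then
        wt H w.1 * wt H w.2 * Pm (den θ H) {ω | HP σ ω 0 w} else 0) := by
    intro w
    by_cases h : 2 * B * k * H < nm w
    · rw [if_pos h]
      exact le_add_self
    · rw [if_neg h, add_zero, ← mul_add]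
      gcongr
      rw [hx]
      exact WIN_pt hWLO hWH1 σ hθ hθ1 hH hK (not_lt.1 h)
  calc Zp H (den θ H) σ ≤ ∑' w : Pt,
      (wt H w.1 * wt H w.2 * Pm (den θ H) {ω | HP σ ω 0 w ∧ (tr ω 0 w).card ∈ Win K θ k} +
      wt H w.1 * wt H w.2 * x +
      (if 2 * B * k * H < nm w then
        wt H w.1 * wt H w.2 * Pm (den θ H) {ω | HP σ ω 0 w} else 0)) := ENNReal.tsum_le_tsum h1
    _ = ZW H (den θ H) σ (Win K θ k) + (∑' w : Pt, wt H w.1 * wt H w.2) * x +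
        ∑' w : Pt, (if 2 * B * k * H < nm w then
        wt H w.1 * wt H w.2 * Pm (den θ H) {ω | HP σ ω 0 w} else 0) := by
        rw [ENNReal.tsum_add, ENNReal.tsum_add, ENNReal.tsum_mul_right]
        rfl
    _ ≤ _ := by
        rw [(hGEW H hH).2.2.2.2.1, one_mul]
        gcongr
        exact hWH2 k B H σ θ hH hθ.le hθ1

theorem WIN_e1 : Real.exp 1 ≤ 14 / 5 := by
  have := Real.exp_one_lt_d9
  linarith

/-- few ones -/
theorem WIN_x1 {k : ℕ} {θ K c₀ : ℝ} (hθ : 0 < θ) (hK : 0 < K) (hc : 16 ≤ K * c₀) :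
    (((⌊θ * (k : ℝ) ^ 2 / K⌋₊ : ℕ) : ℝ) ^ k / ((k.factorial : ℕ) : ℝ) ^ 2) ≤ (c₀ * θ / 2) ^ k := by
  have h1 : ((⌊θ * (k : ℝ) ^ 2 / K⌋₊ : ℕ) : ℝ) ≤ θ * (k : ℝ) ^ 2 / K :=
    Nat.floor_le (by positivity)
  have h2 : (k : ℝ) ^ k / ((k.factorial : ℕ) : ℝ) ≤ (14 / 5) ^ k := by
    refine (Real.pow_div_factorial_le_exp (k : ℝ) (Nat.cast_nonneg _) k).trans ?_
    have h3 : Real.exp (k : ℝ) = Real.exp 1 ^ k := by
      rw [← Real.exp_nat_mul, mul_one]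
    rw [h3]
    exact pow_le_pow_left₀ (Real.exp_pos _).le WIN_e1 _
  have hk : (0 : ℝ) < ((k.factorial : ℕ) : ℝ) := by exact_mod_cast k.factorial_pos
  calc (((⌊θ * (k : ℝ) ^ 2 / K⌋₊ : ℕ) : ℝ) ^ k / ((k.factorial : ℕ) : ℝ) ^ 2)
      ≤ (θ * (k : ℝ) ^ 2 / K) ^ k / ((k.factorial : ℕ) : ℝ) ^ 2 := by gcongr
    _ = (θ / K) ^ k * ((k : ℝ) ^ k / ((k.factorial : ℕ) : ℝ)) ^ 2 := by
        rw [div_pow ((k : ℝ) ^ k), ← pow_mul, mul_comm k 2, pow_mul, mul_div_assoc', ← mul_pow]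
        congr 2
        ring
    _ ≤ (θ / K) ^ k * ((14 / 5) ^ k) ^ 2 := by gcongr
    _ = (θ / K * (14 / 5) ^ 2) ^ k := by
        rw [mul_pow, ← pow_mul, ← pow_mul, mul_comm k 2]
    _ ≤ (c₀ * θ / 2) ^ k := by
        refine pow_le_pow_left₀ (by positivity) ?_ _
        have hc0 : 0 < c₀ := by
          by_contra h
          nlinarith [not_lt.1 h]
        rw [div_mul_eq_mul_div, div_le_iff₀ hK]
        nlinarith

/-- many ones -/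
theorem WIN_x2 (m : ℕ) :
    ((m : ℝ) / 4) ^ m / ((m.factorial : ℕ) : ℝ) ≤ (7 / 10) ^ m := by
  have h2 : (m : ℝ) ^ m / ((m.factorial : ℕ) : ℝ) ≤ (14 / 5) ^ m := by
    refine (Real.pow_div_factorial_le_exp (m : ℝ) (Nat.cast_nonneg _) m).trans ?_
    have h3 : Real.exp (m : ℝ) = Real.exp 1 ^ m := by
      rw [← Real.exp_nat_mul, mul_one]
    rw [h3]
    exact pow_le_pow_left₀ (Real.exp_pos _).le WIN_e1 _
  calc ((m : ℝ) / 4) ^ m / ((m.factorial : ℕ) : ℝ)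
      = (1 / 4) ^ m * ((m : ℝ) ^ m / ((m.factorial : ℕ) : ℝ)) := by
        rw [mul_div_assoc', ← mul_pow]
        congr 2
        ring
    _ ≤ (1 / 4) ^ m * (14 / 5) ^ m := by gcongr
    _ = (7 / 10) ^ m := by
        rw [← mul_pow]
        norm_num

theorem WIN_pow {u ε : ℝ} (hu : 0 ≤ u) (hu1 : u < 1) (hε : 0 < ε) :
    ∃ n : ℕ, ∀ m, n ≤ m → u ^ m ≤ ε := by
  obtain ⟨n, hn⟩ := exists_pow_lt_of_lt_one hε hu1
  exact ⟨n, fun m hm => (pow_le_pow_of_le_one hu hu1.le hm).trans hn.le⟩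

theorem WIN (hWLO : WLO_stmt) (hWH1 : WH1_stmt) (hWH2 : WH2_stmt) (hGEW : GEW_stmt) :
    WIN_stmt := by
  intro c₀ c₁ hc₀ hc₁
  obtain ⟨B₁, hB₁⟩ := WIN_pow (u := 1 / 2) (ε := c₀ / 32) (by norm_num) (by norm_num)
    (by positivity)
  obtain ⟨B₂, hB₂⟩ := exists_nat_ge (16 / c₀)
  obtain ⟨B, hB⟩ : ∃ B : ℕ, B = B₁ + B₂ + 1 := ⟨_, rfl⟩
  have hB1 : (1 : ℝ) ≤ B := by
    rw [hB]
    push_cast
    have := Nat.cast_nonneg (α := ℝ) B₁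
    have := Nat.cast_nonneg (α := ℝ) B₂
    linarith
  have hBc : 16 / c₀ ≤ B := by
    refine hB₂.trans ?_
    exact_mod_cast (by omega : B₂ ≤ B)
  have hBp : 16 / 2 ^ B ≤ c₀ / 2 := by
    have h1 := hB₁ B (by omega)
    rw [one_div, inv_pow] at h1
    rw [div_eq_mul_inv]
    linarith
  refine ⟨4 * (B : ℝ) ^ 2, by nlinarith, ?_⟩
  obtain ⟨K, hK⟩ : ∃ K : ℝ, K = 4 * (B : ℝ) ^ 2 := ⟨_, rfl⟩
  rw [← hK]
  have hK1 : 1 ≤ K := by rw [hK]; nlinarith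
  have hKc : 16 ≤ K * c₀ := by
    rw [div_le_iff₀ hc₀] at hBc
    have h1 : (B : ℝ) ≤ K := by rw [hK]; nlinarith
    nlinarith
  intro θ hθ hθ1
  obtain ⟨L, hL⟩ := WIN_pow (u := 7 / 10) (ε := c₀ * θ / 2) (by norm_num) (by norm_num)
    (by positivity)
  obtain ⟨k₁, hk₁⟩ := WIN_pow (u := 1 / 2) (ε := c₁ / 12) (by norm_num) (by norm_num)
    (by positivity)
  obtain ⟨k₂, hk₂⟩ := exists_nat_ge ((L : ℝ) / θ)
  refine ⟨k₁ + k₂, ?_⟩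
  intro k hk σ H hH hZ
  have hsum := WIN_sum hWLO hWH1 hWH2 hGEW σ hθ hθ1 hH hK
  have hx1 := WIN_x1 (k := k) hθ (by linarith) hKc
  have hx2 := WIN_x2 (⌊K * θ * (k : ℝ) ^ 2⌋₊ + 1)
  have hx2' : (7 / 10 : ℝ) ^ (⌊K * θ * (k : ℝ) ^ 2⌋₊ + 1) ≤ (c₀ * θ / 2) ^ k := by
    have h1 : L * k ≤ ⌊K * θ * (k : ℝ) ^ 2⌋₊ + 1 := by
      refine le_trans ?_ (Nat.le_succ _)
      refine Nat.le_floor ?_
      push_cast
      have h2 : (L : ℝ) ≤ θ * k := by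
        rw [div_le_iff₀ hθ] at hk₂
        have h3 : (k₂ : ℝ) ≤ k := by exact_mod_cast (by omega : k₂ ≤ k)
        nlinarith
      have h3 : (0 : ℝ) ≤ k := Nat.cast_nonneg _
      have h4 : (0 : ℝ) ≤ θ * (k : ℝ) ^ 2 := by positivity
      calc (L : ℝ) * k ≤ θ * k * k := by gcongr
        _ = 1 * (θ * (k : ℝ) ^ 2) := by ring
        _ ≤ K * (θ * (k : ℝ) ^ 2) := by gcongr
        _ = K * θ * (k : ℝ) ^ 2 := by ring
    calc (7 / 10 : ℝ) ^ (⌊K * θ * (k : ℝ) ^ 2⌋₊ + 1) ≤ (7 / 10 : ℝ) ^ (L * k) :=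
          pow_le_pow_of_le_one (by norm_num) (by norm_num) h1
      _ = ((7 / 10 : ℝ) ^ L) ^ k := pow_mul _ _ _
      _ ≤ (c₀ * θ / 2) ^ k := pow_le_pow_left₀ (by positivity) (hL L le_rfl) _
  have hx3 : 4 * (16 * θ / 2 ^ B) ^ k ≤ 4 * (c₀ * θ / 2) ^ k := by
    have h1 : 16 * θ / 2 ^ B ≤ c₀ * θ / 2 := by
      have h2 : 16 * θ / 2 ^ B = 16 / 2 ^ B * θ := by ring
      rw [h2]
      nlinarith
    have h3 : 0 ≤ 16 * θ / 2 ^ B := by positivity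
    gcongr
  have hhalf : 6 * (c₀ * θ / 2) ^ k ≤ 1 / 2 * (c₁ * (c₀ * θ) ^ k) := by
    have h1 := hk₁ k (by omega)
    have h2 : (c₀ * θ / 2) ^ k = (1 / 2) ^ k * (c₀ * θ) ^ k := by
      rw [← mul_pow]
      congr 1
      ring
    rw [h2]
    have h3 : 0 ≤ (c₀ * θ) ^ k := by positivity
    nlinarith
  have hpos : 0 ≤ (c₀ * θ / 2) ^ k := by positivity
  have hZ1 : Zp H (den θ H) σ ≤ ZW H (den θ H) σ (Win K θ k) + Zp H (den θ H) σ / 2 := by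
    refine hsum.trans ?_
    rw [add_assoc]
    refine add_le_add le_rfl ?_
    calc (ENNReal.ofReal (((⌊θ * (k : ℝ) ^ 2 / K⌋₊ : ℕ) : ℝ) ^ k / ((k.factorial : ℕ) : ℝ) ^ 2) +
      ENNReal.ofReal ((((⌊K * θ * (k : ℝ) ^ 2⌋₊ + 1 : ℕ) : ℝ) / 4) ^ (⌊K * θ * (k : ℝ) ^ 2⌋₊ + 1) /
        (((⌊K * θ * (k : ℝ) ^ 2⌋₊ + 1).factorial : ℕ) : ℝ))) +
      ENNReal.ofReal (4 * (16 * θ / 2 ^ B) ^ k)
        ≤ (ENNReal.ofReal ((c₀ * θ / 2) ^ k) + ENNReal.ofReal ((c₀ * θ / 2) ^ k)) +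
          ENNReal.ofReal (4 * (c₀ * θ / 2) ^ k) := by
          refine add_le_add (add_le_add ?_ ?_) ?_
          · exact ENNReal.ofReal_le_ofReal hx1
          · exact ENNReal.ofReal_le_ofReal (hx2.trans hx2')
          · exact ENNReal.ofReal_le_ofReal hx3
      _ = ENNReal.ofReal (6 * (c₀ * θ / 2) ^ k) := by
          rw [← ENNReal.ofReal_add hpos hpos, ← ENNReal.ofReal_add (by positivity) (by positivity)]
          congr 1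
          ring
      _ ≤ ENNReal.ofReal (1 / 2 * (c₁ * (c₀ * θ) ^ k)) := ENNReal.ofReal_le_ofReal hhalf
      _ = ENNReal.ofReal (c₁ * (c₀ * θ) ^ k) / 2 := by
          rw [ENNReal.ofReal_mul (by norm_num), mul_comm, ENNReal.div_eq_inv_mul, mul_comm]
          congr 1
          rw [one_div, ENNReal.ofReal_inv_of_pos (by norm_num)]
          norm_num
      _ ≤ Zp H (den θ H) σ / 2 := by gcongr
  have hZfin : Zp H (den θ H) σ ≤ 1 := by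
    rw [← (hGEW H hH).2.2.2.2.1]
    unfold Zp
    refine ENNReal.tsum_le_tsum fun w => ?_
    calc wt H w.1 * wt H w.2 * Pm (den θ H) {ω | HP σ ω 0 w}
        ≤ wt H w.1 * wt H w.2 * 1 := by
          gcongr
          exact prob_le_one
      _ = _ := mul_one _
  have hZne : Zp H (den θ H) σ / 2 ≠ ⊤ :=
    ENNReal.div_ne_top (ne_top_of_le_ne_top ENNReal.one_ne_top hZfin) (by norm_num)
  have h1 : Zp H (den θ H) σ / 2 ≤ ZW H (den θ H) σ (Win K θ k) := by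
    have h2 := hZ1
    nth_rewrite 1 [← ENNReal.add_halves (Zp H (den θ H) σ)] at h2
    exact (ENNReal.add_le_add_iff_right hZne).1 h2
  calc Zp H (den θ H) σ = 2 * (Zp H (den θ H) σ / 2) := by
        rw [ENNReal.mul_div_cancel (by norm_num) (by norm_num)]
    _ ≤ _ := by gcongr

end

end Pool.Agent.MSW
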